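import Pool.Agent.Lib.helper21.ABFin

/-! Every value in `[log κ, log φ]` is the entropy of some `f_{a,b}`. -/

set_option autoImplicit false

namespace Pool.Agent.Results.MP_d04ad0_an.Values

open Set Pool.Agent.Lib.Helper21.ABDef Pool.Agent.Lib.Helper21.ABFin

theorem result (κ : ℝ) (hκ : κ ^ 3 - κ ^ 2 - 1 = 0) (h : ℝ) (h1 : Real.log κ ≤ h) (h2 : h ≤ Real.log ((1 + √5) / 2)) :
    ∃ a b : ℝ, Par a b ∧ HasEnt a b h := by
  have P : ∀ b ∈ Icc (0 : ℝ) 1, Par (-1) b := fun b hb => ⟨by norm_num, hb.1, by linarith [hb.1], by linarith [hb.2]⟩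
  obtain ⟨b, hb, e⟩ := intermediate_value_Icc zero_le_one
    (cont.comp (f := fun b : ℝ => (-1, b)) (by fun_prop) P) ⟨(upper' hκ (hent ..)).trans h1, h2.trans (lower' (hent ..))⟩
  exact ⟨-1, b, P b hb, e ▸ hent (-1) b⟩

end Pool.Agent.Results.MP_d04ad0_an.Values
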